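import Pool.Agent.R969.MY.W

set_option autoImplicit false

/-!
# A continuous martingale which is a non-regular semimartingale in a larger filtration

Definitions: `Pool/Agent/R969/MY/Defs.lean` and `Pool/Agent/Helper41/SK/MainDefs.lean`. Processes are
indexed by `t : ℝ`, but only the times `t ≥ 0` matter.

The example is Pitman's theorem with drift read backwards in time: `M` is a Brownian motion `B`
stopped at time `1`, `X_t = B_t - t/2`, `e` is an exponential variable independent of `F_1`,
`J_t = max (sup_{[t,1]} X, X_1 + e)` and `G` is the right-continuous version of `F_t ∨ σ(J_t)`. The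
finite variation part of `M` in `G` is `min(t,1) + 2 (J_t - J_0)`, and `J` only moves on the
Lebesgue-null set where `J = X`.
-/

open MeasureTheory ProbabilityTheory Set Filter
open Pool.Agent.Helper41.SK Pool.Agent.R969.MY

/-- There are a complete probability space, two filtrations `F ⊆ G` satisfying the usual conditions
and a continuous `F`-martingale `M` which is a `G`-semimartingale but not a regular one. Its
quadratic variation is `min(t,1)`; in its `G`-decomposition `M = N + A` the process `N` is a
`G`-martingale with quadratic variation `min(t,1)`, and with positive probability the path of `A`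
is not absolutely continuous. -/
theorem Pool.Agent.Results.MP_e3daee_pr.SingularDrift.result :
    ∃ (Ω : Type) (_ : MeasurableSpace Ω) (P : Measure Ω)
      (F G : ℝ → MeasurableSpace Ω) (M : ℝ → Ω → ℝ),
      IsProbabilityMeasure P ∧ P.IsComplete ∧
      IsFilt P F ∧ IsFilt P G ∧ (∀ t, 0 ≤ t → F t ≤ G t) ∧
      (∀ t, 0 ≤ t → F t = ⨅ u : {u : ℝ // t < u}, F u.1) ∧
      (∀ t, 0 ≤ t → G t = ⨅ u : {u : ℝ // t < u}, G u.1) ∧
      IsMart P F M ∧ IsLocMart P F M ∧ IsSemi P G M ∧ ¬ IsRegular P G M ∧
      IsQV P M (fun t _ => min t 1) ∧
      ∃ N A : ℝ → Ω → ℝ, IsDecomp P G M N A ∧ IsMart P G N ∧ IsQV P N (fun t _ => min t 1) ∧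
        ¬ ∀ᵐ ω ∂P, IsAC (fun t => A t ω) (fun t => min t 1) :=
  main
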